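import Pool.Agent.Lib.MP_661727_gt.NMain
import Pool.Agent.Lib.MP_661727_gt.Adapt

open Pool.Agent.Lib.MP_661727_gt

theorem Pool.Agent.Results.MP_661727_gt.AdaptedNPC.result {n : ℕ} (P : Pattern n) (ψ : P.Glue)
    (irr : Pattern.Irred ψ) (hA : ∀ v, (P.N v).Adapt) :
    ∃ (P' : Pattern n) (ψ' : P'.Glue), Pattern.NPC ψ' ∧ SubQI (P.pi1 ψ) (P'.pi1 ψ') := by
  obtain ⟨P', ψ', a, b⟩ := adapt_ce P ψ irr hA
  obtain ⟨P'', ψ'', c, e⟩ := flip_npc P' ψ' a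
  exact ⟨P'', ψ'', c, (e _ b).qi (P.fg ψ)⟩
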