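import Pool.Agent.Lib.MP_661727_gt.NMain
import Pool.Agent.Lib.MP_661727_gt.FG

open Pool.Agent.Lib.MP_661727_gt

theorem Pool.Agent.Results.MP_661727_gt.SplitNPC.result {n : ℕ} (P : Pattern n) (ψ : P.Glue)
    (j : ∀ v, (Fin (n - P.d v) → ℤ) →+ (Fin (n - P.d v) → ℤ)) (hj : ∀ v, Function.Injective (j v))
    (h0 : ∀ e, Splits (j (P.src e)) fun f => (Pattern.fwd ψ e f).1)
    (h1 : ∀ e, Splits (j (P.tgt e)) fun f => (Pattern.bwd ψ e f).1) :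
    ∃ (P' : Pattern n) (ψ' : P'.Glue), Pattern.NPC ψ' ∧ SubQI (P.pi1 ψ) (P'.pi1 ψ') := by
  obtain ⟨ψ', a, b⟩ := flip_ce P ψ j hj h0 h1
  obtain ⟨P', ψ'', c, e⟩ := flip_npc P ψ' a
  exact ⟨P', ψ'', c, (e _ b).qi (P.fg ψ)⟩
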