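import Pool.Agent.Lib.MP_661727_gt.NMain
import Pool.Agent.Lib.MP_661727_gt.T3.Top

open Pool.Agent.Lib.MP_661727_gt

theorem Pool.Agent.Results.MP_661727_gt.ThreeWallNPC.result {n : ℕ} (P : Pattern n) (ψ : P.Glue)
    (irr : Pattern.Irred ψ)
    (h : ∀ e, (P.d (P.src e) = 3 ∧ P.d (P.tgt e) = 3) ∨ P.d (P.src e) = n ∨ P.d (P.tgt e) = n ∨
      Splits (AddMonoidHom.id _) fun f => (Pattern.fwd ψ e f).1) :
    ∃ (P' : Pattern n) (ψ' : P'.Glue), Pattern.NPC ψ' ∧ SubQI (P.pi1 ψ) (P'.pi1 ψ') := by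
  obtain ⟨P', ψ', a, b⟩ := T3.top2 P ψ irr h
  obtain ⟨P'', ψ'', c, e⟩ := flip_npc P' ψ' a
  exact ⟨P'', ψ'', c, (e _ b).qi (P.fg ψ)⟩
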